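import Pool.Agent.N931.PN.Stm4
import Pool.Agent.Results.MP_fe58d8_pr.NaturalCurve

/-!
Project PN (helper931), leaf TGT (helper273): tightness of the laws of the exploration paths.
-/

set_option autoImplicit false

namespace Pool.Agent.N273.PN.TGT

open H974 H984N H984P MeasureTheory Filter Topology Finset
open Pool.Agent.N931.PN Pool.Agent.N116.EW
open H342L (cdist Curve)

/-- The curve of a pair (curve, time). -/
def cv (p : X) : Curve := ⟨p.1⟩

theorem cv_cont : Continuous cv := mk_cont.comp continuous_fst

theorem map_law (R : Rect) (δ : ℝ) :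
    (R.law δ).map cv_cont.measurable.aemeasurable = law R δ pc := by
  apply Subtype.ext
  show (R.lawM δ).map cv = lawM R δ pc
  ext G hG
  rw [Measure.map_apply cv_cont.measurable hG, lawM_apply R δ pc hG,
    R.lawM_apply δ (cv_cont.measurable hG)]
  rfl

theorem main : S_TGT := by
  intro R δ hδ hδ0
  obtain ⟨φ, hφ, μ, hμ⟩ :=
    (Pool.Agent.Results.MP_fe58d8_pr.NaturalCurve.result R).2.2.1 δ hδ hδ0
  refine ⟨φ, hφ, μ.map cv_cont.measurable.aemeasurable, ?_⟩
  have h1 := ProbabilityMeasure.tendsto_map_of_tendsto_of_continuous _ _ hμ cv_cont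
  simpa only [map_law] using h1

end Pool.Agent.N273.PN.TGT
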